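import Pool.Agent.helper5.IH.Spec

/-!
# Row ih:CMP
-/

set_option autoImplicit false

namespace Pool.Agent.IH
open Finset CT SYM

theorem CMP : CMP_stmt := by
  classical
  intro V _ _ S σ τ hS
  let A : V → Finset (Fin 3) := fun v => univ.filter fun x =>
    (v ∈ S → x = 0) ∧ ((x = 0 → σ v = v) ∧ (x = 1 → σ v ≠ v)) ∧ (x = 0 → τ v = v) ∧ (x = 1 → τ v ≠ v)
  have h1 : Nat.card {t : V → Fin 3 // (∀ v ∈ S, t v = 0) ∧ Cp t σ ∧ Cp t τ} =
      (Fintype.piFinset A).card := by
    rw [Nat.card_eq_fintype_card, Fintype.card_subtype]
    congr 1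
    ext t
    simp only [A, Finset.mem_filter, Finset.mem_univ, true_and, Fintype.mem_piFinset]
    constructor
    · rintro ⟨a, b, c⟩ v
      exact ⟨a v, b v, c v⟩
    · intro h
      exact ⟨fun v => (h v).1, fun v => (h v).2.1, fun v => (h v).2.2⟩
  rw [h1, Fintype.card_piFinset]
  have h2 : ∀ v, (A v).card = if v ∉ S ∧ (σ v = v ↔ τ v = v) then 2 else 1 := by
    intro v
    by_cases hv : v ∈ S
    · obtain ⟨e1, e2⟩ := hS v hv
      have h3 : A v = {0} := by
        ext x
        simp only [A, Finset.mem_filter, Finset.mem_univ, true_and, Finset.mem_singleton, e1, e2, hv]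
        fin_cases x <;> simp [e1, e2]
      rw [h3, if_neg (fun h => h.1 hv)]
      rfl
    · by_cases e1 : σ v = v <;> by_cases e2 : τ v = v
      · have h3 : A v = {0, 2} := by
          ext x
          simp only [A, Finset.mem_filter, Finset.mem_univ, true_and, Finset.mem_insert,
            Finset.mem_singleton, e1, e2, hv]
          fin_cases x <;> simp [e1, e2]
        rw [h3, if_pos ⟨hv, by simp [e1, e2]⟩]
        rfl
      · have h3 : A v = {2} := by
          ext x
          simp only [A, Finset.mem_filter, Finset.mem_univ, true_and,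
            Finset.mem_singleton, e1, e2, hv]
          fin_cases x <;> simp [e1, e2]
        rw [h3, if_neg (fun h => e2 (h.2.1 e1))]
        rfl
      · have h3 : A v = {2} := by
          ext x
          simp only [A, Finset.mem_filter, Finset.mem_univ, true_and,
            Finset.mem_singleton, e1, e2, hv]
          fin_cases x <;> simp [e1, e2]
        rw [h3, if_neg (fun h => e1 (h.2.2 e2))]
        rfl
      · have h3 : A v = {1, 2} := by
          ext x
          simp only [A, Finset.mem_filter, Finset.mem_univ, true_and, Finset.mem_insert,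
            Finset.mem_singleton, e1, e2, hv]
          fin_cases x <;> simp [e1, e2]
        rw [h3, if_pos ⟨hv, by simp [e1, e2]⟩]
        rfl
  rw [Finset.prod_congr rfl fun v _ => h2 v, Finset.prod_ite, Finset.prod_const,
    Finset.prod_const_one, mul_one, Nat.card_eq_fintype_card, Fintype.card_subtype]

end Pool.Agent.IH
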