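import Pool.Agent.helper5.IH.Spec

/-!
# Row ih:DET
-/

set_option autoImplicit false

namespace Pool.Agent.IH
open Finset CT SYM

theorem DET_add_self (x : ZMod 2) : x + x = 0 := by
  revert x
  decide

theorem DET_sign (e : ℤˣ) : ((e : ℤ) : ZMod 2) = 1 := by
  rcases Int.units_eq_one_or e with rfl | rfl <;> decide

open Classical in
/-- The condition at one vertex. -/
def DET_P {V : Type} (H : SimpleGraph V) (t : V → Fin 3) (σ : Equiv.Perm V) (i : V) : Prop :=
  (σ i = i ∧ t i ≠ 1) ∨ (σ i ≠ i ∧ H.Adj (σ i) i ∧ t (σ i) ≠ 0 ∧ t i ≠ 0)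

open Classical in
theorem DET_entry {V : Type} [DecidableEq V] (H : SimpleGraph V) (t : V → Fin 3) (σ : Equiv.Perm V)
    (i : V) : MM H t (σ i) i = if DET_P H t σ i then 1 else 0 := by
  unfold MM DET_P
  rw [Matrix.of_apply]
  by_cases h : σ i = i
  · rw [if_pos h, h]
    by_cases h1 : t i = 1
    · rw [if_pos h1, if_neg]
      simp [h, h1]
    · rw [if_neg h1, if_pos]
      simp [h1]
  · rw [if_neg h]
    by_cases h1 : H.Adj (σ i) i ∧ t (σ i) ≠ 0 ∧ t i ≠ 0
    · rw [if_pos h1, if_pos (Or.inr ⟨h, h1⟩)]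
    · rw [if_neg h1, if_neg]
      rintro (⟨h2, -⟩ | ⟨-, h2⟩)
      · exact h h2
      · exact h1 h2

theorem DET_symm {V : Type} [DecidableEq V] (H : SimpleGraph V) (t : V → Fin 3) (v w : V) :
    MM H t v w = MM H t w v := by
  unfold MM
  rw [Matrix.of_apply, Matrix.of_apply]
  by_cases h : v = w
  · subst h
    rfl
  · rw [if_neg h, if_neg (Ne.symm h)]
    congr 1
    rw [eq_iff_iff]
    constructor
    · rintro ⟨h1, h2, h3⟩
      exact ⟨h1.symm, h3, h2⟩
    · rintro ⟨h1, h2, h3⟩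
      exact ⟨h1.symm, h3, h2⟩

theorem DET_iff {V : Type} (H : SimpleGraph V) (t : V → Fin 3) (σ : Equiv.Perm V)
    (hσ : σ⁻¹ = σ) : (∀ i, DET_P H t σ i) ↔ Mt H σ ∧ Cp t σ := by
  have hσ' : ∀ v, σ (σ v) = v := by
    intro v
    have h1 : σ⁻¹ (σ v) = v := σ.symm_apply_apply v
    rwa [hσ] at h1
  constructor
  · intro h
    refine ⟨⟨hσ', fun v hv => ?_⟩, fun v => ⟨fun h0 => ?_, fun h1 => ?_⟩⟩
    · rcases h v with h1 | h1
      · exact absurd h1.1 hv
      · exact h1.2.1.symm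
    · by_contra hv
      rcases h v with h1 | h1
      · exact hv h1.1
      · exact h1.2.2.2 h0
    · rcases h v with h2 | h2
      · exact absurd h1 h2.2
      · exact h2.1
  · rintro ⟨⟨-, hm⟩, hc⟩ i
    by_cases hi : σ i = i
    · exact Or.inl ⟨hi, fun h1 => (hc i).2 h1 hi⟩
    · right
      refine ⟨hi, (hm i hi).symm, fun h0 => ?_, fun h0 => hi ((hc i).1 h0)⟩
      have h1 := (hc (σ i)).1 h0
      rw [hσ'] at h1
      exact hi h1.symm

theorem DET : DET_stmt := by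
  classical
  intro V _ _ H t
  rw [Matrix.det_apply']
  have h1 : ∀ σ : Equiv.Perm V, (((Equiv.Perm.sign σ : ℤˣ) : ℤ) : ZMod 2) * ∏ i, MM H t (σ i) i =
      ∏ i, MM H t (σ i) i := fun σ => by rw [DET_sign, one_mul]
  rw [Finset.sum_congr rfl fun σ _ => h1 σ]
  have hinv : ∀ σ : Equiv.Perm V, ∏ i, MM H t (σ⁻¹ i) i = ∏ i, MM H t (σ i) i := by
    intro σ
    rw [← Equiv.prod_comp σ fun i => MM H t (σ⁻¹ i) i]
    refine Finset.prod_congr rfl fun i _ => ?_
    have h2 : σ⁻¹ (σ i) = i := σ.symm_apply_apply i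
    rw [h2]
    exact DET_symm H t _ _
  rw [← Finset.sum_filter_add_sum_filter_not univ (fun σ : Equiv.Perm V => σ⁻¹ = σ)]
  have hz : ∑ σ ∈ univ.filter (fun σ : Equiv.Perm V => ¬ σ⁻¹ = σ), ∏ i, MM H t (σ i) i = 0 := by
    refine Finset.sum_involution (fun σ _ => σ⁻¹) ?_ ?_ ?_ ?_
    · intro σ _
      rw [hinv]
      exact DET_add_self _
    · intro σ hσ _
      exact (Finset.mem_filter.1 hσ).2
    · intro σ hσ
      rw [Finset.mem_filter] at hσ ⊢
      refine ⟨Finset.mem_univ _, ?_⟩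
      rw [inv_inv]
      exact fun h => hσ.2 h.symm
    · intro σ _
      exact inv_inv σ
  rw [hz, add_zero]
  have h2 : ∀ σ ∈ univ.filter (fun σ : Equiv.Perm V => σ⁻¹ = σ), ∏ i, MM H t (σ i) i =
      if Mt H σ ∧ Cp t σ then 1 else 0 := by
    intro σ hσ
    rw [Finset.mem_filter] at hσ
    rw [Finset.prod_congr rfl fun i _ => DET_entry H t σ i, Finset.prod_boole]
    congr 1
    rw [eq_iff_iff, ← DET_iff H t σ hσ.2]
    simp
  rw [Finset.sum_congr rfl h2, Finset.sum_boole, Finset.filter_filter]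
  unfold mu
  rw [Nat.card_eq_fintype_card, Fintype.card_subtype]
  congr 2
  ext σ
  simp only [Finset.mem_filter, Finset.mem_univ, true_and]
  constructor
  · rintro ⟨-, h⟩
    exact h
  · intro h
    refine ⟨?_, h⟩
    ext v
    have h3 : σ⁻¹ (σ (σ v)) = σ v := σ.symm_apply_apply (σ v)
    rwa [h.1.1] at h3

end Pool.Agent.IH
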