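import Pool.Agent.helper5.IH.Spec

/-!
# Row ih:IND
-/

set_option autoImplicit false

namespace Pool.Agent.IH
open Finset CT SYM

theorem IND : IND_stmt := by
  classical
  intro V _ _ H S hS hlt
  unfold numHam
  rw [Nat.card_eq_zero]
  left
  refine ⟨?_⟩
  rintro ⟨F, hF, -, hdeg⟩
  have hdeg' : ∀ v, (univ.filter fun w => F.Adj v w).card = 2 := by
    intro v
    rw [← hdeg v, Nat.card_eq_fintype_card, Fintype.card_subtype]
  have hdc : ∑ x ∈ S, (Sᶜ.filter fun y => F.Adj x y).card =
      ∑ y ∈ Sᶜ, (S.filter fun x => F.Adj x y).card := by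
    simp only [Finset.card_filter]
    exact Finset.sum_comm
  have h1 : ∑ x ∈ S, (Sᶜ.filter fun y => F.Adj x y).card = 2 * S.card := by
    have h2 : ∀ x ∈ S, (Sᶜ.filter fun y => F.Adj x y).card = 2 := by
      intro x hx
      rw [← hdeg' x]
      congr 1
      ext y
      simp only [Finset.mem_filter, Finset.mem_compl, Finset.mem_univ, true_and]
      constructor
      · rintro ⟨-, h⟩
        exact h
      · intro h
        exact ⟨fun hy => hS x hx y hy (hF h), h⟩
    rw [Finset.sum_congr rfl h2, Finset.sum_const, smul_eq_mul, mul_comm]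
  have h3 : ∑ y ∈ Sᶜ, (S.filter fun x => F.Adj x y).card ≤ 2 * Sᶜ.card := by
    have h4 : ∀ y ∈ Sᶜ, (S.filter fun x => F.Adj x y).card ≤ 2 := by
      intro y _
      rw [← hdeg' y]
      refine Finset.card_le_card fun x hx => ?_
      rw [Finset.mem_filter] at hx ⊢
      exact ⟨Finset.mem_univ _, hx.2.symm⟩
    calc _ ≤ ∑ y ∈ Sᶜ, 2 := Finset.sum_le_sum h4
      _ = 2 * Sᶜ.card := by rw [Finset.sum_const, smul_eq_mul, mul_comm]
  rw [← hdc, h1, Finset.card_compl] at h3
  have h5 := Finset.card_le_univ S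
  omega

end Pool.Agent.IH
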