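import Pool.Agent.helper5.IH.Spec

/-!
# Row ih:KER
-/

set_option autoImplicit false

namespace Pool.Agent.IH
open Finset CT SYM

theorem KER_add_self (x : ZMod 2) : x + x = 0 := by
  revert x
  decide

theorem KER_add_eq_zero (x y : ZMod 2) : x + y = 0 ↔ y = x := by
  revert x y
  decide

open Classical in
theorem KER_iff {V : Type} [Fintype V] [DecidableEq V] (H : SimpleGraph V) (t : V → Fin 3) (z : V → ZMod 2) :
    Kz H t z ↔ (MM H t).mulVec z = 0 := by
  -- rows
  have h0 : ∀ v, t v = 0 → (MM H t).mulVec z v = z v := by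
    intro v hv
    show ∑ w, MM H t v w * z w = z v
    rw [Finset.sum_eq_single v]
    · have : MM H t v v = 1 := by
        unfold MM
        rw [Matrix.of_apply, if_pos rfl, if_neg (by rw [hv]; decide)]
      rw [this, one_mul]
    · intro w _ hw
      have : MM H t v w = 0 := by
        unfold MM
        rw [Matrix.of_apply, if_neg (Ne.symm hw), if_neg fun h => h.2.1 hv]
      rw [this, zero_mul]
    · intro h
      exact absurd (Finset.mem_univ v) h
  have h1 : (∀ w, t w = 0 → z w = 0) → ∀ v, t v ≠ 0 → (MM H t).mulVec z v =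
      (if t v = 2 then z v else 0) + ∑ w, if H.Adj v w then z w else 0 := by
    intro hz v hv
    show ∑ w, MM H t v w * z w = _
    have h2 : ∀ w, MM H t v w * z w = (if v = w then (if t v = 2 then z v else 0) else 0) +
        if H.Adj v w then z w else 0 := by
      intro w
      unfold MM
      rw [Matrix.of_apply]
      by_cases hvw : v = w
      · subst hvw
        rw [if_pos rfl, if_pos rfl, if_neg (H.loopless.irrefl v), add_zero]
        have h3 : t v = 1 ∨ t v = 2 := by
          generalize t v = s at hv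
          revert hv
          revert s
          decide
        rcases h3 with h3 | h3
        · rw [if_pos h3, if_neg (by rw [h3]; decide), zero_mul]
        · rw [if_neg (by rw [h3]; decide), if_pos h3, one_mul]
      · rw [if_neg hvw, if_neg hvw, zero_add]
        by_cases h3 : H.Adj v w
        · rw [if_pos h3]
          by_cases h4 : t w = 0
          · rw [hz w h4, mul_zero]
          · rw [if_pos ⟨h3, hv, h4⟩, one_mul]
        · rw [if_neg h3, if_neg fun h => h3 h.1, zero_mul]
    rw [Finset.sum_congr rfl fun w _ => h2 w, Finset.sum_add_distrib, Finset.sum_ite_eq,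
      if_pos (Finset.mem_univ v)]
  constructor
  · intro h
    have hz : ∀ w, t w = 0 → z w = 0 := fun w hw => (h w).1 hw
    funext v
    by_cases hv : t v = 0
    · rw [h0 v hv, hz v hv]
      rfl
    · rw [h1 hz v hv, (h v).2 hv]
      exact KER_add_self _
  · intro h
    have hz : ∀ w, t w = 0 → z w = 0 := by
      intro w hw
      rw [← h0 w hw, h]
      rfl
    intro v
    refine ⟨hz v, fun hv => ?_⟩
    have h2 := h1 hz v hv
    rw [h] at h2
    exact (KER_add_eq_zero _ _).1 h2.symm

theorem KER (hDET : DET_stmt) : KER_stmt := by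
  classical
  intro V _ _ H t
  have h1 : (∃ z ≠ 0, (MM H t).mulVec z = 0) ↔ (MM H t).det = 0 := Matrix.exists_mulVec_eq_zero_iff
  have h2 : Odd (mu H t) ↔ ¬ (MM H t).det = 0 := by
    rw [hDET, ZMod.natCast_eq_zero_iff_even, Nat.not_even_iff_odd]
  have hK0 : Kz H t 0 := by
    rw [KER_iff]
    exact Matrix.mulVec_zero _
  rw [h2, ← h1]
  constructor
  · intro hc
    rintro ⟨z, hz, hMz⟩
    rw [Nat.card_eq_one_iff_unique] at hc
    obtain ⟨hs, -⟩ := hc
    have h3 : (⟨z, (KER_iff H t z).2 hMz⟩ : {z : V → ZMod 2 // Kz H t z}) = ⟨0, hK0⟩ :=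
      Subsingleton.elim _ _
    exact hz (congrArg Subtype.val h3)
  · intro hn
    rw [Nat.card_eq_one_iff_unique]
    refine ⟨⟨?_⟩, ⟨⟨0, hK0⟩⟩⟩
    have h3 : ∀ z, Kz H t z → z = 0 := by
      intro z hz
      by_contra hne
      exact hn ⟨z, hne, (KER_iff H t z).1 hz⟩
    rintro ⟨z, hz⟩ ⟨z', hz'⟩
    exact Subtype.ext ((h3 z hz).trans (h3 z' hz').symm)

end Pool.Agent.IH
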